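import Pool.Agent.Helper66x.AK.RealW

set_option autoImplicit false

/-!
# MP_4b405e_nt: the exponent `f(k)` of the arithmetic Kakeya problem is exact

For every `k ≥ 2` there are a number `f ∈ [1/2, 1]` and symmetric weights `w_0, ..., w_(k-1)`, of sum
one, such that

1. the infima of the lower Minkowski, upper Minkowski and Assouad dimensions of the bounded sets in
   `ℝ^n` which contain a `k`-term progression with every common difference in `[0,1]^n` are all equal
   to `n f`; the infima are approached by compact sets of small Assouad dimension;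
2. finite sets in torsion-free abelian groups: if the `j`-th terms of progressions with all common
   differences in `R` lie in `D_j`, then `|R|^f ≤ ∏ |D_j|^(w_j)`, without any constant; in particular
   `|R|^f ≤ |D|` if `D` contains the progressions;
3. no larger exponent is possible, not even for `R = {0, ..., M-1}` and `D_j = D ⊆ ℤ`;
4. the same inequality for the covering numbers of sets of real vectors, at every scale;
5. hence `f · dim R ≤ dim B` for the upper and the lower Minkowski dimension.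

Hence the conjecture of the problem says that for every `ε > 0` there is `k` with
`|R|^(1-ε) ≤ |D|` for all nonempty finite sets of integers: one finite example for every `k` disproves
it.

Proof.  Digits: a finite set `D ⊆ ℤ` which contains progressions with all common differences
`0 ≤ r < M` gives the self-similar set of all numbers with digits in `D` in the base `M`, whose
dimension is at most `log |D| / log M` for any of the definitions, and this set contains progressions
with all common differences in `[0,1]` because there is no need to carry.  Conversely powers of `R`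
are mapped to intervals by random linear forms, the number of translates needed is logarithmic, and
the power trick removes all constants.  The weights come from a separation theorem for the convex
cone generated by the vectors `(log |D_j| - f log |R|)_j`.
-/

open Filter Topology

namespace Pool.Agent.Results.MP_4b405e_nt.ExactExponent

/-- Euclidean space `ℝ^n`. -/
abbrev E (n : ℕ) : Type := EuclideanSpace ℝ (Fin n)

/-- The least number of sets of diameter at most `δ` covering `B` (for bounded `B`). -/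
noncomputable def coverNum {n : ℕ} (B : Set (E n)) (δ : ℝ) : ℕ :=
  sInf {N | ∃ U : Fin N → Set (E n),
    (∀ i, ∀ x ∈ U i, ∀ y ∈ U i, dist x y ≤ δ) ∧ B ⊆ ⋃ i, U i}

/-- Upper Minkowski dimension (upper box-counting dimension). -/
noncomputable def upperMinkowski {n : ℕ} (B : Set (E n)) : EReal :=
  limsup (fun δ : ℝ => ((Real.log (coverNum B δ) / Real.log (1 / δ) : ℝ) : EReal)) (𝓝[>] 0)

/-- Lower Minkowski dimension (lower box-counting dimension). -/
noncomputable def lowerMinkowski {n : ℕ} (B : Set (E n)) : EReal :=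
  liminf (fun δ : ℝ => ((Real.log (coverNum B δ) / Real.log (1 / δ) : ℝ) : EReal)) (𝓝[>] 0)

/-- Assouad dimension: the infimum of the `s ≥ 0` such that for some `C`, for all `0 < σ < ρ` every
ball of radius `ρ` around a point of `B` meets `B` in a set with covering number at scale `σ` at most
`C (ρ / σ)^s`. -/
noncomputable def assouad {n : ℕ} (B : Set (E n)) : EReal :=
  ⨅ (s : ℝ) (_ : 0 ≤ s) (_ : ∃ C : ℝ, ∀ x ∈ B, ∀ ρ σ : ℝ, 0 < σ → σ < ρ →
    (coverNum (B ∩ Metric.closedBall x ρ) σ : ℝ) ≤ C * (ρ / σ) ^ s), (s : EReal)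

/-- `B` contains a `k`-term progression with every common difference in `[0,1]^n`. -/
def HasProgressions {n : ℕ} (k : ℕ) (B : Set (E n)) : Prop :=
  ∀ r : E n, (∀ i, r i ∈ Set.Icc (0 : ℝ) 1) → ∃ a : E n, ∀ j : ℕ, j < k → a + (j : ℝ) • r ∈ B

/-- The infimum of `dim B` over the bounded sets `B ⊆ ℝ^n` which contain a `k`-term progression with
every common difference in `[0,1]^n`.  For the upper Minkowski dimension this is `f^M_n(k)`. -/
noncomputable def infDim (n k : ℕ) (dim : Set (E n) → EReal) : EReal :=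
  ⨅ (B : Set (E n)) (_ : Bornology.IsBounded B) (_ : HasProgressions k B), dim B

theorem result :
    (∀ k : ℕ, 2 ≤ k → ∃ (f : ℝ) (w : Fin k → ℝ), 1 / 2 ≤ f ∧ f ≤ 1 ∧
      (∀ j, 0 ≤ w j) ∧ (∀ j : Fin k, w j.rev = w j) ∧ ∑ j, w j = 1 ∧
      -- 1. dimensions
      (∀ n : ℕ, infDim n k lowerMinkowski = ((n * f : ℝ) : EReal) ∧
        infDim n k upperMinkowski = ((n * f : ℝ) : EReal) ∧
        infDim n k assouad = ((n * f : ℝ) : EReal) ∧
        ∀ s : ℝ, n * f < s → ∃ B : Set (E n), IsCompact B ∧ HasProgressions k B ∧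
          assouad B ≤ (s : EReal)) ∧
      -- 2. finite sets in torsion-free groups
      (∀ (G : Type) [AddCommGroup G] [IsAddTorsionFree G] (R : Finset G) (D : Fin k → Finset G),
        R.Nonempty → (∀ r ∈ R, ∃ a : G, ∀ j : Fin k, a + (j : ℕ) • r ∈ D j) →
        (R.card : ℝ) ^ f ≤ ∏ j, ((D j).card : ℝ) ^ w j) ∧
      -- 3. the exponent is optimal
      (∀ s : ℝ, f < s → ∀ M₀ : ℕ, ∃ M : ℕ, M₀ ≤ M ∧ ∃ D : Finset ℤ,
        (∀ r : ℤ, 0 ≤ r → r < M → ∃ a : ℤ, ∀ j : ℕ, j < k → a + j * r ∈ D) ∧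
        (D.card : ℝ) ≤ (M : ℝ) ^ s) ∧
      -- 4. sets of real vectors, at every scale
      (∀ n : ℕ, ∃ C : ℝ, 0 < C ∧ ∀ (R : Set (E n)) (B : Fin k → Set (E n)),
        (∀ j, Bornology.IsBounded (B j)) →
        (∀ r ∈ R, ∃ a : E n, ∀ j : Fin k, a + ((j : ℕ) : ℝ) • r ∈ B j) →
        ∀ δ : ℝ, 0 < δ → (coverNum R δ : ℝ) ^ f ≤ C * ∏ j, (coverNum (B j) δ : ℝ) ^ w j) ∧
      -- 5. arbitrary sets of common differences
      (∀ (n : ℕ) (R B : Set (E n)), Bornology.IsBounded B →
        (∀ r ∈ R, ∃ a : E n, ∀ j : ℕ, j < k → a + (j : ℝ) • r ∈ B) → ∀ s : ℝ,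
        ((s : EReal) ≤ upperMinkowski R → ((f * s : ℝ) : EReal) ≤ upperMinkowski B) ∧
        ((s : EReal) ≤ lowerMinkowski R → ((f * s : ℝ) : EReal) ≤ lowerMinkowski B))) ∧
    -- the conjecture
    ((∀ n : ℕ, Tendsto (fun k => infDim n k upperMinkowski) atTop (𝓝 ((n : ℝ) : EReal))) ↔
      ∀ ε : ℝ, 0 < ε → ∃ k : ℕ, ∀ R D : Finset ℤ, R.Nonempty →
        (∀ r ∈ R, ∃ a : ℤ, ∀ j : ℕ, j < k → a + j * r ∈ D) →
        (R.card : ℝ) ^ (1 - ε) ≤ D.card) := by
  have hmain : ∀ k : ℕ, 2 ≤ k → ∃ (f : ℝ) (w : Fin k → ℝ), 1 / 2 ≤ f ∧ f ≤ 1 ∧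
      (∀ j, 0 ≤ w j) ∧ (∀ j : Fin k, w j.rev = w j) ∧ ∑ j, w j = 1 ∧
      (∀ n : ℕ, infDim n k lowerMinkowski = ((n * f : ℝ) : EReal) ∧
        infDim n k upperMinkowski = ((n * f : ℝ) : EReal) ∧
        infDim n k assouad = ((n * f : ℝ) : EReal) ∧
        ∀ s : ℝ, n * f < s → ∃ B : Set (E n), IsCompact B ∧ HasProgressions k B ∧
          assouad B ≤ (s : EReal)) ∧
      (∀ (G : Type) [AddCommGroup G] [IsAddTorsionFree G] (R : Finset G) (D : Fin k → Finset G),
        R.Nonempty → (∀ r ∈ R, ∃ a : G, ∀ j : Fin k, a + (j : ℕ) • r ∈ D j) →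
        (R.card : ℝ) ^ f ≤ ∏ j, ((D j).card : ℝ) ^ w j) ∧
      (∀ s : ℝ, f < s → ∀ M₀ : ℕ, ∃ M : ℕ, 2 ≤ M ∧ M₀ ≤ M ∧ ∃ D : Finset ℤ,
        (∀ r : ℤ, 0 ≤ r → r < M → ∃ a : ℤ, ∀ j : ℕ, j < k → a + j * r ∈ D) ∧
        (D.card : ℝ) ≤ (M : ℝ) ^ s) ∧
      (∀ n : ℕ, ∃ C : ℝ, 0 < C ∧ ∀ (R : Set (E n)) (B : Fin k → Set (E n)),
        (∀ j, Bornology.IsBounded (B j)) →
        (∀ r ∈ R, ∃ a : E n, ∀ j : Fin k, a + ((j : ℕ) : ℝ) • r ∈ B j) →
        ∀ δ : ℝ, 0 < δ → (coverNum R δ : ℝ) ^ f ≤ C * ∏ j, (coverNum (B j) δ : ℝ) ^ w j) ∧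
      (∀ (n : ℕ) (R B : Set (E n)), Bornology.IsBounded B →
        (∀ r ∈ R, ∃ a : E n, ∀ j : ℕ, j < k → a + (j : ℝ) • r ∈ B) → ∀ s : ℝ,
        ((s : EReal) ≤ upperMinkowski R → ((f * s : ℝ) : EReal) ≤ upperMinkowski B) ∧
        ((s : EReal) ≤ lowerMinkowski R → ((f * s : ℝ) : EReal) ≤ lowerMinkowski B)) := by
    intro k hk
    obtain ⟨f, hf1, hf2, -, hf, hsharp⟩ := Helper66x.AK.exponent hk
    have hf0 : 0 < f := by linarith
    obtain ⟨w, hw0, hwr, hw1, hV⟩ :=
      Helper66x.AK.exists_weights_symm (by omega : 1 ≤ k) hf0.le hf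
    refine ⟨f, w, hf1, hf2, hw0, hwr, hw1, fun n => ?_, ?_, hsharp,
      fun n => Helper66x.AK.real_sets_w hk hf0 hw0 hw1 hV n, ?_⟩
    · obtain ⟨h1, h2, h3⟩ := Helper66x.AK.infima hk hf0 hf hsharp n
      refine ⟨h1, h2, h3, fun s hs => ?_⟩
      obtain ⟨B, hB1, hB2, hB3⟩ := Helper66x.AK.exists_small hk hf0.le hsharp n hs
      refine ⟨B, hB1, hB2, ?_⟩
      have hs0 : 0 ≤ s := (by positivity : 0 ≤ n * f).trans hs.le
      exact Helper66x.AK.assouad_le hs0 hB3
    · intro G _ _ R D hR hc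
      exact Helper66x.AK.weighted hw1 hV R D hR hc
    · intro n R B hB hR s
      obtain ⟨C, hC, h⟩ := Helper66x.AK.real_sets hk hf0 hf n
      have e : s / (1 / f) = f * s := by field_simp
      rw [← e]
      exact ⟨V11295.ProgAny.upper_of (by positivity) hC (h R B hB hR) s,
        V11295.ProgAny.lower_of (by positivity) hC (h R B hB hR) s⟩
  refine ⟨fun k hk => ?_, ?_, ?_⟩
  · obtain ⟨f, w, h1, h2, h3, h4, h5, h6, h7, h8, h9, h10⟩ := hmain k hk
    refine ⟨f, w, h1, h2, h3, h4, h5, h6, h7, fun s hs M₀ => ?_, h9, h10⟩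
    obtain ⟨M, -, hM, h⟩ := h8 s hs M₀
    exact ⟨M, hM, h⟩
  · intro h ε hε
    have h1 := h 1
    rw [Nat.cast_one] at h1
    have h2 : ((1 - ε : ℝ) : EReal) < ((1 : ℝ) : EReal) := by
      rw [EReal.coe_lt_coe_iff]
      linarith
    obtain ⟨k, hk, hk2⟩ := ((h1.eventually (lt_mem_nhds h2)).and (eventually_ge_atTop 2)).exists
    obtain ⟨f, w, h1, h2, h3, h4, h5, h6, h7, h8, h9, h10⟩ := hmain k hk2
    rw [(h6 1).2.1, Nat.cast_one, one_mul, EReal.coe_lt_coe_iff] at hk
    refine ⟨k, fun R D hR hc => ?_⟩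
    have h11 := h7 ℤ R (fun _ => D) hR (by
      intro r hr
      obtain ⟨a, ha⟩ := hc r hr
      refine ⟨a, fun j => ?_⟩
      rw [nsmul_eq_mul]
      exact ha j j.2)
    have hD : D.Nonempty := by
      obtain ⟨r, hr⟩ := hR
      obtain ⟨a, ha⟩ := hc r hr
      exact ⟨_, ha 0 (by omega)⟩
    have hD' : (0 : ℝ) < D.card := by exact_mod_cast hD.card_pos
    rw [← Real.rpow_sum_of_pos hD', h5, Real.rpow_one] at h11
    refine le_trans (Real.rpow_le_rpow_of_exponent_le ?_ hk.le) h11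
    exact_mod_cast hR.card_pos
  · intro h n
    have hf : ∀ k : ℕ, ∃ f : ℝ, 2 ≤ k → f ≤ 1 ∧
        infDim n k upperMinkowski = ((n * f : ℝ) : EReal) ∧
        (∀ s : ℝ, f < s → ∀ M₀ : ℕ, ∃ M : ℕ, 2 ≤ M ∧ M₀ ≤ M ∧ ∃ D : Finset ℤ,
          (∀ r : ℤ, 0 ≤ r → r < M → ∃ a : ℤ, ∀ j : ℕ, j < k → a + j * r ∈ D) ∧
          (D.card : ℝ) ≤ (M : ℝ) ^ s) := by
      intro k
      rcases le_or_gt 2 k with hk | hk
      · obtain ⟨f, w, h1, h2, h3, h4, h5, h6, h7, h8, h9, h10⟩ := hmain k hk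
        exact ⟨f, fun _ => ⟨h2, (h6 n).2.1, h8⟩⟩
      · exact ⟨0, fun hk' => absurd hk' (by omega)⟩
    choose f hf using hf
    have hlim : Tendsto f atTop (𝓝 1) := by
      rw [Metric.tendsto_atTop]
      intro ε hε
      obtain ⟨k₀, hk₀⟩ := h (ε / 2) (by positivity)
      refine ⟨max k₀ 2, fun k hk => ?_⟩
      obtain ⟨h1, -, h3⟩ := hf k ((le_max_right _ _).trans hk)
      have h4 : 1 - ε / 2 ≤ f k := by
        by_contra hcon
        push Not at hcon
        obtain ⟨s, hs1, hs2⟩ := exists_between hcon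
        obtain ⟨M, hM, -, D, hD, hc⟩ := h3 s hs1 0
        have hM' : (1 : ℝ) < M := by exact_mod_cast (by omega : 1 < M)
        have h5 := hk₀ (Finset.Ico (0 : ℤ) M) D ⟨0, by rw [Finset.mem_Ico]; omega⟩ (by
          intro r hr
          rw [Finset.mem_Ico] at hr
          obtain ⟨a, ha⟩ := hD r hr.1 hr.2
          exact ⟨a, fun j hj => ha j (hj.trans_le ((le_max_left _ _).trans hk))⟩)
        rw [Int.card_Ico, sub_zero, Int.toNat_natCast] at h5
        have h6 := (Real.rpow_le_rpow_left_iff hM').mp (h5.trans hc)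
        linarith
      rw [Real.dist_eq, abs_lt]
      constructor <;> linarith
    have h1 : Tendsto (fun k => ((n * f k : ℝ) : EReal)) atTop (𝓝 ((n : ℝ) : EReal)) := by
      have h2 := hlim.const_mul (n : ℝ)
      rw [mul_one] at h2
      exact (continuous_coe_real_ereal.tendsto _).comp h2
    refine h1.congr' ?_
    filter_upwards [eventually_ge_atTop 2] with k hk
    exact (hf k hk).2.1.symm

end Pool.Agent.Results.MP_4b405e_nt.ExactExponent
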