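import Pool.Agent.H85AK.FIN
import Pool.Agent.H85AK.LIFT
import Pool.Agent.H85AK.GEO
import Pool.Agent.H85AK.EX
import Pool.Agent.H85AK.PT
import Pool.Agent.H85AK.SZB
import Pool.Agent.H85AK.ASY
import Pool.Agent.H85AK.HRG
import Pool.Agent.H85AK.FIN3
import Pool.Agent.H85AK.CIR
import Pool.Agent.H85AK.DIS
import Pool.Agent.H85AK.CHT

set_option autoImplicit false

/-!
# MP_4b405e_nt: generic patterns with few places have the exponent `1/2`

The problem asks whether the exponent of the pattern `0, 1, ..., k-1` (all places below `k`) tends to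
one.  Here we consider patterns `J_0, ..., J_(m-1)` of some places `< k`; a set `B ⊆ ℝ^n` contains the
pattern for every `r ∈ [0,1]^n` if it contains all `a + J_i r` for some `a = a(r)`.  Q1 says that there
are patterns with exponent as close to one as we please.

1. For every `ε > 0` almost all patterns with `m ≤ c log log k` places `< k` have an exponent at most
   `1/2 + ε`: all but at most `k^(m - 1/2)` of the `k^m` patterns.
2. For every `ε > 0` there are patterns with `m ≥ exp (c (log k / log log k)^(1/2))` different places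
   `< k` with an exponent at most `1/2 + ε`, namely the conjugate products
   `∏_{j ∈ I} (θ + j)^2 ∏_{j ∉ I} (θ - j)^2`, `I ⊆ {1, ..., h}`, `θ = (2h+2)^(2hq)`, `q = q(ε)`. Also
   harmonic patterns `L/d_1, ..., L/d_m` where `d_1, ..., d_m` are divisors of `L` in a short interval.
3. `1/2` is the least exponent of a pattern with two different places.

All this for compact sets and the Assouad dimension, which is the strongest form.

Proof.  A finite set `D` of integers which contains the pattern for all differences `r` in a finite set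
`R ⊆ ℤ` of integers gives such a set for all differences `0 ≤ r < M` (translates of powers of `R` under
a random linear form cover an interval), and self-similar sets with these digits have the
required dimension.  For harmonic patterns `R = {y - X x}` and `a = L x`.  For conjugate products let
`r = g(θ)` for polynomials `g` of degree `< 2T` with small coefficients, and `a = - J_∅ g(-θ)`; then
`a + J_I r` is a multiple of the odd part of `∏_{j ∈ I} (θ + j)^2 g(θ)`, with half as many coefficients.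
For generic patterns let `a`
and `r` be polynomials in the places, such that `a + J_i r` has half of the degrees of freedom for
each `i` separately; the polynomials have `2 D^(m-3)` coefficients below `N`, and the places must not
satisfy any of `(2N)^(2 D^(m-3))` polynomial equations, which excludes few patterns (Schwartz-Zippel).
-/

open Filter Topology

namespace Pool.Agent.Results.MP_4b405e_nt.GenericPatterns

/-- Euclidean space `ℝ^n`. -/
abbrev E (n : ℕ) : Type := EuclideanSpace ℝ (Fin n)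

/-- The least number of sets of diameter at most `δ` covering `B` (for bounded `B`). -/
noncomputable def coverNum {n : ℕ} (B : Set (E n)) (δ : ℝ) : ℕ :=
  sInf {N | ∃ U : Fin N → Set (E n),
    (∀ i, ∀ x ∈ U i, ∀ y ∈ U i, dist x y ≤ δ) ∧ B ⊆ ⋃ i, U i}

/-- Upper Minkowski dimension (upper box-counting dimension). -/
noncomputable def upperMinkowski {n : ℕ} (B : Set (E n)) : EReal :=
  limsup (fun δ : ℝ => ((Real.log (coverNum B δ) / Real.log (1 / δ) : ℝ) : EReal)) (𝓝[>] 0)

/-- Lower Minkowski dimension (lower box-counting dimension). -/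
noncomputable def lowerMinkowski {n : ℕ} (B : Set (E n)) : EReal :=
  liminf (fun δ : ℝ => ((Real.log (coverNum B δ) / Real.log (1 / δ) : ℝ) : EReal)) (𝓝[>] 0)

/-- Assouad dimension: the infimum of the `s ≥ 0` such that for some `C`, for all `0 < σ < ρ` every
ball of radius `ρ` around a point of `B` meets `B` in a set with covering number at scale `σ` at most
`C (ρ / σ)^s`. -/
noncomputable def assouad {n : ℕ} (B : Set (E n)) : EReal :=
  ⨅ (s : ℝ) (_ : 0 ≤ s) (_ : ∃ C : ℝ, ∀ x ∈ B, ∀ ρ σ : ℝ, 0 < σ → σ < ρ →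
    (coverNum (B ∩ Metric.closedBall x ρ) σ : ℝ) ≤ C * (ρ / σ) ^ s), (s : EReal)

/-- `B` contains the pattern `J` with every common difference in `[0,1]^n`: for every `r ∈ [0,1]^n`
some `a` has `a + J_i r ∈ B` for all `i`. The pattern `0, 1, ..., k-1` is a `k`-term progression. -/
def HasPattern {n m : ℕ} (J : Fin m → ℕ) (B : Set (E n)) : Prop :=
  ∀ r : E n, (∀ i, r i ∈ Set.Icc (0 : ℝ) 1) → ∃ a : E n, ∀ i, a + (J i : ℝ) • r ∈ B

/-- The infimum of `dim B` over the bounded sets `B ⊆ ℝ^n` which contain the pattern `J` with every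
common difference in `[0,1]^n`. -/
noncomputable def infDim (n : ℕ) {m : ℕ} (J : Fin m → ℕ) (dim : Set (E n) → EReal) : EReal :=
  ⨅ (B : Set (E n)) (_ : Bornology.IsBounded B) (_ : HasPattern J B), dim B

/-- The pattern `J` has an exponent at most `s`: in every `ℝ^n` some compact set of Assouad dimension
at most `n s` contains the pattern with every common difference in `[0,1]^n`. -/
def SmallPattern {m : ℕ} (J : Fin m → ℕ) (s : ℝ) : Prop :=
  ∀ n : ℕ, ∃ B : Set (E n), IsCompact B ∧ HasPattern J B ∧ assouad B ≤ ((n * s : ℝ) : EReal)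

/-- `f^M_n(k)` of the problem. -/
noncomputable def fM (n k : ℕ) : EReal := infDim n (fun j : Fin k => (j : ℕ)) upperMinkowski

theorem small {m : ℕ} {J : Fin m → ℕ} {s : ℝ} (hs : 0 ≤ s) (h : H85AK.Small J s) :
    SmallPattern J s := by
  intro n
  obtain ⟨B, h1, h2, h3⟩ := h n
  exact ⟨B, h1, h2, Helper66x.AK.assouad_le (by positivity) h3⟩

theorem infDim_le {n m : ℕ} {J : Fin m → ℕ} {s : ℝ} (h : SmallPattern J s) :
    infDim n J upperMinkowski ≤ ((n * s : ℝ) : EReal) := by
  obtain ⟨B, h1, h2, h3⟩ := h n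
  exact iInf_le_of_le B (iInf_le_of_le h1.isBounded (iInf_le_of_le h2
    ((Helper66x.AK.upper_le_assouad h1.isBounded).trans h3)))

theorem lower {n m : ℕ} {J : Fin m → ℕ} {i j : Fin m} (hij : J i ≠ J j) :
    ((n / 2 : ℝ) : EReal) ≤ infDim n J lowerMinkowski := by
  refine le_iInf fun B => le_iInf fun hB => le_iInf fun hP => ?_
  rcases lt_or_gt_of_ne hij with h | h
  · exact H85AK.lower_half J h hB hP
  · exact H85AK.lower_half J h hB hP

/-- patterns with fewer places -/
theorem infDim_mono {n m k : ℕ} {J : Fin m → ℕ} (h : ∀ i, J i < k)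
    (dim : Set (E n) → EReal) : infDim n J dim ≤ infDim n (fun j : Fin k => (j : ℕ)) dim := by
  refine le_iInf fun B => le_iInf fun hB => le_iInf fun hP => ?_
  refine iInf_le_of_le B (iInf_le_of_le hB (iInf_le_of_le (fun r hr => ?_) le_rfl))
  obtain ⟨a, ha⟩ := hP r hr
  exact ⟨a, fun i => ha ⟨J i, h i⟩⟩

/-- `f^M_n(k) ≤ n` -/
theorem fM_le {n k : ℕ} (hk : 2 ≤ k) : fM n k ≤ ((n : ℝ) : EReal) := by
  obtain ⟨f, w, h1, h2, h3, h4, h5, h6, -⟩ := (ExactExponent.result).1 k hk
  have h7 : fM n k ≤ ExactExponent.infDim n k ExactExponent.upperMinkowski := by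
    refine le_iInf fun B => le_iInf fun hB => le_iInf fun hP => ?_
    refine iInf_le_of_le B (iInf_le_of_le hB (iInf_le_of_le (fun r hr => ?_) le_rfl))
    obtain ⟨a, ha⟩ := hP r hr
    exact ⟨a, fun i => ha i i.2⟩
  rw [(h6 n).2.1] at h7
  refine h7.trans ?_
  rw [EReal.coe_le_coe_iff]
  have : (0 : ℝ) ≤ n := Nat.cast_nonneg n
  nlinarith

/-- Q1 in terms of patterns -/
theorem q1_iff : (∀ n : ℕ, Tendsto (fun k => fM n k) atTop (𝓝 ((n : ℝ) : EReal))) ↔
    ∀ n : ℕ, ∀ ε : ℝ, 0 < ε → ∃ (m : ℕ) (J : Fin m → ℕ),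
      ((n - ε : ℝ) : EReal) ≤ infDim n J upperMinkowski := by
  constructor
  · intro h n ε hε
    have h1 : ((n - ε : ℝ) : EReal) < ((n : ℝ) : EReal) := by
      rw [EReal.coe_lt_coe_iff]
      linarith
    obtain ⟨k, hk⟩ := ((h n).eventually (lt_mem_nhds h1)).exists
    exact ⟨k, fun j => (j : ℕ), hk.le⟩
  · intro h n
    refine tendsto_order.2 ⟨fun a ha => ?_, fun a ha => ?_⟩
    · obtain ⟨y, hay, hyn⟩ := EReal.lt_iff_exists_real_btwn.mp ha
      have hyn' : y < n := by exact_mod_cast hyn
      obtain ⟨m, J, hJ⟩ := h n (n - y) (by linarith)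
      have e : (n : ℝ) - (n - y) = y := by ring
      rw [e] at hJ
      filter_upwards [eventually_ge_atTop (∑ i, J i + 1)] with k hk
      refine (hay.trans_le hJ).trans_le (infDim_mono (fun i => ?_) _)
      have : J i ≤ ∑ i, J i := Finset.single_le_sum (fun _ _ => Nat.zero_le _) (Finset.mem_univ i)
      omega
    · filter_upwards [eventually_ge_atTop 2] with k hk
      exact (fM_le hk).trans_lt ha

theorem result :
    -- almost all patterns with few places
    (∀ ε : ℝ, 0 < ε → ∃ c : ℝ, 0 < c ∧ ∃ k₀ : ℕ, ∀ k : ℕ, k₀ ≤ k → ∀ m : ℕ, 3 ≤ m →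
      (m : ℝ) ≤ c * Real.log (Real.log k) →
      ({J : Fin m → Fin k | ¬ SmallPattern (fun i => (J i : ℕ)) (1 / 2 + ε)}.ncard : ℝ) ≤
        (k : ℝ) ^ ((m : ℝ) - 1 / 2)) ∧
    -- patterns with many places
    (∀ ε : ℝ, 0 < ε → ∃ c : ℝ, 0 < c ∧ ∃ k₀ : ℕ, ∀ k : ℕ, k₀ ≤ k → ∃ m : ℕ,
      Real.exp (c * √(Real.log k / Real.log (Real.log k))) ≤ m ∧
        ∃ J : Fin m → ℕ, Function.Injective J ∧
        (∀ t, J t < k) ∧ SmallPattern J (1 / 2 + ε)) ∧
    -- harmonic patterns
    (∀ (m L X W : ℕ) (d : Fin m → ℕ) (s : ℝ), 1 ≤ m → 2 ≤ X →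
      (∀ i, X < d i ∧ d i ≤ X + W ∧ d i ∣ L) →
      1 / 2 + Real.log (W + 1) / (2 * Real.log X) < s → SmallPattern (fun i => L / d i) s) ∧
    -- the exponents
    (∀ (m : ℕ) (J : Fin m → ℕ) (n : ℕ),
      (∀ s : ℝ, SmallPattern J s → infDim n J upperMinkowski ≤ ((n * s : ℝ) : EReal)) ∧
      ((∃ i j, J i ≠ J j) → ((n / 2 : ℝ) : EReal) ≤ infDim n J lowerMinkowski)) ∧
    -- the conjecture
    ((∀ n : ℕ, Tendsto (fun k => fM n k) atTop (𝓝 ((n : ℝ) : EReal))) ↔
      ∀ n : ℕ, ∀ ε : ℝ, 0 < ε → ∃ (m : ℕ) (J : Fin m → ℕ),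
        ((n - ε : ℝ) : EReal) ≤ infDim n J upperMinkowski) := by
  refine ⟨fun ε hε => ?_, fun ε hε => ?_, fun m L X W d s hm hX hd hs => ?_,
    fun m J n => ⟨fun s hs => ?_, fun h => ?_⟩, q1_iff⟩
  · obtain ⟨c, hc, k₀, h⟩ := H85AK.almost_all H85AK.t_LIFT H85AK.t_GEO H85AK.t_EX
      (H85AK.t_SZB H85AK.t_PT) H85AK.t_ASY hε
    refine ⟨c, hc, k₀, fun k hk m hm hmc => ?_⟩
    refine le_trans ?_ (h k hk m hm hmc)
    have h1 : {J : Fin m → Fin k | ¬ SmallPattern (fun i => (J i : ℕ)) (1 / 2 + ε)} ⊆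
        {J : Fin m → Fin k | ¬ H85AK.Small (fun i => (J i : ℕ)) (1 / 2 + ε)} := by
      intro J hJ hs
      exact hJ (small (by linarith) hs)
    exact_mod_cast Set.ncard_le_ncard h1 (Set.toFinite _)
  · obtain ⟨c, hc, k₀, h⟩ := H85AK.more_places H85AK.t_LIFT H85AK.t_GEO H85AK.t_CIR H85AK.t_DIS
      H85AK.t_CHT hε
    refine ⟨c, hc, k₀, fun k hk => ?_⟩
    obtain ⟨m, hm, J, hinj, hlt, hJ⟩ := h k hk
    exact ⟨m, hm, J, hinj, hlt, small (by linarith) hJ⟩
  · have hs0 : 0 ≤ s := by
      have h1 : 0 ≤ Real.log ((W : ℝ) + 1) := Real.log_nonneg (by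
        have : (0 : ℝ) ≤ W := Nat.cast_nonneg W
        linarith)
      have h2 : 0 ≤ Real.log (X : ℝ) := Real.log_nonneg (by
        have : (2 : ℝ) ≤ X := by exact_mod_cast hX
        linarith)
      have h3 : 0 ≤ Real.log ((W : ℝ) + 1) / (2 * Real.log X) := by positivity
      linarith
    have h4 : ∀ i, X + (d i - X - 1) + 1 = d i := fun i => by
      have := (hd i).1
      omega
    have h5 := H85AK.small_harmonic (L := L) H85AK.t_LIFT H85AK.t_GEO (fun i => d i - X - 1) hm hX
      (W := W) (fun i => by have := hd i; omega) (fun i => by rw [h4]; exact (hd i).2.2) hs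
    simp only [h4] at h5
    exact small hs0 h5
  · exact infDim_le hs
  · obtain ⟨i, j, hij⟩ := h
    exact lower hij

end Pool.Agent.Results.MP_4b405e_nt.GenericPatterns
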