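import Pool.Agent.H89IP.Main
import Pool.Agent.H89IP.BIG2
import Pool.Agent.H89IP.CTR
import Pool.Agent.H89IP.SEQ
import Pool.Agent.H89IP.DIG
import Pool.Agent.H89IP.CEL2
import Pool.Agent.H89IP.OUT
import Pool.Agent.H89IP.DIL
import Pool.Agent.H89IP.SZE
import Pool.Agent.H89IP.LEB
import Pool.Agent.H89IP.CLO2
import Pool.Agent.H89IP.PRI

/-!
# MP_4b405e_nt: infinite progressions, rational lines and packing dimension

Let `L = lim f(k)`, where `f^M_n(k) = n f(k)`; so the conjecture (Q1) says `L = 1`.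

1. In every dimension `n` there is a `σ`-compact set `B ⊆ ℝ^n` of packing dimension exactly `n L`
   which contains, for EVERY vector `r`, a translate of the whole rational line `ℚ r`; in particular an
   infinite arithmetic progression `a + j r`, `j ∈ ℤ`.
2. Conversely let `R` and `B` be arbitrary subsets of `ℝ^n`, and suppose that for every `r ∈ R`
   - `B` contains arbitrarily long progressions whose common differences are nonzero rational
     multiples of `r`, or
   - for some `a` the set of the integers `j` with `a + j r ∈ B` has positive upper Banach density, or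
   - for some `a` the set of the primes `p` with `a + p r ∈ B` has positive relative upper density, or
   - for some `a` the set of the real numbers `t` with `a + t r ∈ B` has positive outer measure.
   Then `L dim_P R ≤ dim_P B`; in particular `dim_P B ≥ n L ≥ 0.5989 n` if `R` has positive outer measure.
3. So Q1 is equivalent to its infinite version: every set in `ℝ^n` which contains a translate of `ℚ r`
   (or of `ℤ r`) for every `r` has packing dimension `n`; and to the strong version with the weak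
   hypotheses of 2.  Here `n ≥ 1` may be fixed.

Proof.  1. Numbers with the mixed radix bases `2, 4, 8, …`: the common difference `r = ∑ r_l / P_l` is
followed by `a = ∑ a_l / (J_l! P_l)`, where `a_l + j r_l`, `|j| ≤ J_l J_l!`, lies in a compressed set
`Δ_l ⊆ ℤ` of at most `(2^(l+1))^(L + o(1))` elements and `J_l → ∞` slowly; for a rational number `t` all
but finitely many digits of `a + t r` lie in `Δ_l / J_l!`.  2. `R` is a countable union of sets for which
the rational multiple and the pieces of `B` containing the terms of the progression are constant; the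
inequality of `ExactExponent` for covering numbers with weights is used for these sets.  The weak
hypotheses: Szemerédi's theorem for integers and for primes; Lebesgue's density theorem for the closed
sets `{t : a + t r ∈ closure (S i)}`.
-/

set_option autoImplicit false

open Filter Topology MeasureTheory

namespace Pool.Agent.Results.MP_4b405e_nt.InfiniteProgressions

/-- Euclidean space `ℝ^n`. -/
abbrev E (n : ℕ) : Type := EuclideanSpace ℝ (Fin n)

/-- The least number of sets of diameter at most `δ` covering `B` (for bounded `B`). -/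
noncomputable def coverNum {n : ℕ} (B : Set (E n)) (δ : ℝ) : ℕ :=
  sInf {N | ∃ U : Fin N → Set (E n),
    (∀ i, ∀ x ∈ U i, ∀ y ∈ U i, dist x y ≤ δ) ∧ B ⊆ ⋃ i, U i}

/-- Upper Minkowski dimension (upper box-counting dimension) of a bounded set. -/
noncomputable def upperMinkowski {n : ℕ} (B : Set (E n)) : EReal :=
  limsup (fun δ : ℝ => ((Real.log (coverNum B δ) / Real.log (1 / δ) : ℝ) : EReal)) (𝓝[>] 0)

/-- Packing dimension: the infimum of `sup_i upperMinkowski (S i)` over the countable coverings of `B` by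
bounded sets `S i`. -/
noncomputable def packingDim {n : ℕ} (B : Set (E n)) : EReal :=
  ⨅ (S : ℕ → Set (E n)) (_ : ∀ i, Bornology.IsBounded (S i)) (_ : B ⊆ ⋃ i, S i),
    ⨆ i, upperMinkowski (S i)

/-- `B` contains a `k`-term progression with every common difference in `[0,1]^n`. -/
def HasProgressions {n : ℕ} (k : ℕ) (B : Set (E n)) : Prop :=
  ∀ r : E n, (∀ i, r i ∈ Set.Icc (0 : ℝ) 1) → ∃ a : E n, ∀ j : ℕ, j < k → a + (j : ℝ) • r ∈ B

/-- `f^M_n(k)`: the infimum of the upper Minkowski dimensions of the bounded sets `B ⊆ ℝ^n` which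
contain a `k`-term progression with every common difference in `[0,1]^n`. -/
noncomputable def fM (n k : ℕ) : EReal :=
  ⨅ (B : Set (E n)) (_ : Bornology.IsBounded B) (_ : HasProgressions k B), upperMinkowski B

/-- The conjecture Q1: `f^M_n(k) → n` as `k → ∞`, for every positive integer `n`. -/
def Q1 : Prop := ∀ n : ℕ, 1 ≤ n → Tendsto (fun k => fM n k) atTop (𝓝 ((n : ℝ) : EReal))

/-- `B` contains an infinite progression `a + j r`, `j ∈ ℤ`. -/
def ContainsZ {n : ℕ} (B : Set (E n)) (r : E n) : Prop := ∃ a : E n, ∀ j : ℤ, a + (j : ℝ) • r ∈ B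

/-- `B` contains a translate `a + ℚ r` of the rational line. -/
def ContainsQ {n : ℕ} (B : Set (E n)) (r : E n) : Prop := ∃ a : E n, ∀ t : ℚ, a + (t : ℝ) • r ∈ B

/-- `B` contains arbitrarily long progressions whose common differences are nonzero rational multiples
of `r`. -/
def LongProgressions {n : ℕ} (B : Set (E n)) (r : E n) : Prop :=
  ∀ k : ℕ, ∃ (a : E n) (q : ℚ), q ≠ 0 ∧ ∀ j : ℕ, j < k → a + ((j : ℝ) * (q : ℝ)) • r ∈ B

/-- `T` has positive upper Banach density. -/
def PositiveBanachDensity (T : Set ℤ) : Prop := ∃ η : ℝ, 0 < η ∧ ∀ N₀ : ℕ, ∃ N : ℕ, N₀ ≤ N ∧ ∃ t : ℤ,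
  η * N ≤ ((T ∩ Set.Ico t (t + N)).ncard : ℝ)

/-- `T` contains a positive proportion of the primes `p ≤ X`, for arbitrarily large `X`. -/
def PositiveDensityInPrimes (T : Set ℤ) : Prop := ∃ η : ℝ, 0 < η ∧ ∀ X₀ : ℕ, ∃ X : ℕ, X₀ ≤ X ∧
  η * (Nat.primeCounting X : ℝ) ≤ ({p : ℕ | p ≤ X ∧ p.Prime ∧ (p : ℤ) ∈ T}.ncard : ℝ)

/-- One of the four weak forms of the property that `B` contains a translate of the line of `r`. -/
def Rich {n : ℕ} (B : Set (E n)) (r : E n) : Prop :=
  LongProgressions B r ∨ (∃ a : E n, PositiveBanachDensity {j : ℤ | a + (j : ℝ) • r ∈ B}) ∨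
    (∃ a : E n, PositiveDensityInPrimes {j : ℤ | a + (j : ℝ) • r ∈ B}) ∨
    ∃ a : E n, volume {t : ℝ | a + t • r ∈ B} ≠ 0

/-- Infinite version of Q1 in `ℝ^n`, with infinite progressions. -/
def InfiniteZ (n : ℕ) : Prop := ∀ B : Set (E n), (∀ r : E n, ContainsZ B r) →
  packingDim B = ((n : ℝ) : EReal)

/-- Infinite version of Q1 in `ℝ^n`, with rational lines and `σ`-compact sets. -/
def InfiniteQ (n : ℕ) : Prop := ∀ B : Set (E n), IsSigmaCompact B → (∀ r : E n, ContainsQ B r) →
  packingDim B = ((n : ℝ) : EReal)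

/-- Strong version of Q1 in `ℝ^n`: arbitrary sets, weak hypotheses. -/
def Strong (n : ℕ) : Prop := ∀ R B : Set (E n), (∀ r ∈ R, Rich B r) →
  packingDim R ≤ packingDim B

theorem rich_of_containsZ {n : ℕ} {B : Set (E n)} {r : E n} (h : ContainsZ B r) : Rich B r := by
  obtain ⟨a, ha⟩ := h
  refine Or.inl fun k => ⟨a, 1, one_ne_zero, fun j _ => ?_⟩
  have h1 := ha j
  simpa using h1

theorem containsZ_of_containsQ {n : ℕ} {B : Set (E n)} {r : E n} (h : ContainsQ B r) :
    ContainsZ B r := by
  obtain ⟨a, ha⟩ := h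
  refine ⟨a, fun j => ?_⟩
  have h1 := ha j
  simpa using h1

/-- There is a number `L`, the limit of `f^M_n(k) / n` for all `n`, such that `n L` is the least packing
dimension of sets with infinite progressions, or rational lines, in all directions, and
`L dim_P R ≤ dim_P B` in general. -/
theorem result : ∃ L : ℝ, 1 / 1.669587 ≤ L ∧ L ≤ 1 ∧
    -- the limit of the problem
    (∀ n : ℕ, Tendsto (fun k => fM n k) atTop (𝓝 ((n * L : ℝ) : EReal))) ∧
    -- 1. existence
    (∀ n : ℕ, ∃ B : Set (E n), IsSigmaCompact B ∧ (∀ r : E n, ContainsQ B r) ∧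
      packingDim B = ((n * L : ℝ) : EReal)) ∧
    -- 2. lower bound for arbitrary sets
    (∀ (n : ℕ) (R B : Set (E n)), (∀ r ∈ R, Rich B r) →
      ∀ s : ℝ, (s : EReal) ≤ packingDim R → ((L * s : ℝ) : EReal) ≤ packingDim B) ∧
    (∀ (n : ℕ) (R B : Set (E n)), volume R ≠ 0 → (∀ r ∈ R, Rich B r) →
      ((n * L : ℝ) : EReal) ≤ packingDim B) ∧
    -- 3. equivalent forms of the conjecture
    (Q1 ↔ L = 1) ∧
    ∀ n : ℕ, 1 ≤ n → (Q1 ↔ InfiniteQ n) ∧ (Q1 ↔ InfiniteZ n) ∧ (Q1 ↔ Strong n) := by
  obtain ⟨f, L, h⟩ := Pool.Agent.H89IP.exists_exps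
  have hlim : ∀ n : ℕ, Tendsto (fun k => fM n k) atTop (𝓝 ((n * L : ℝ) : EReal)) := by
    intro n
    have h2 : Tendsto (fun k => ((n * f k : ℝ) : EReal)) atTop (𝓝 ((n * L : ℝ) : EReal)) :=
      (continuous_coe_real_ereal.tendsto _).comp (h.lim.const_mul (n : ℝ))
    refine h2.congr' ?_
    filter_upwards [eventually_ge_atTop 2] with k hk
    exact (h.dim k hk n).symm
  have hex : ∀ n : ℕ, ∃ B : Set (E n), IsSigmaCompact B ∧ (∀ r : E n, ContainsQ B r) ∧
      packingDim B ≤ ((n * L : ℝ) : EReal) := fun n =>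
    Pool.Agent.H89IP.exists_smallQ Pool.Agent.H89IP.t_BIG Pool.Agent.H89IP.t_CTR
      Pool.Agent.H89IP.t_SEQ Pool.Agent.H89IP.t_DIG Pool.Agent.H89IP.t_CEL2
      Pool.Agent.H89IP.t_CLO h n
  have hlow : ∀ (n : ℕ) (R B : Set (E n)), (∀ r ∈ R, Rich B r) →
      ∀ s : ℝ, (s : EReal) ≤ packingDim R → ((L * s : ℝ) : EReal) ≤ packingDim B :=
    fun n R B hB s hs => Pool.Agent.H89IP.lower_rich Pool.Agent.H89IP.t_DIL
      Pool.Agent.H89IP.t_LEB Pool.Agent.H89IP.t_SZE Pool.Agent.H89IP.t_PRI Pool.Agent.H89IP.t_CLO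
      h R B hB s hs
  have hvol : ∀ (n : ℕ) (R : Set (E n)), volume R ≠ 0 → ((n : ℝ) : EReal) ≤ packingDim R :=
    fun n R hR => Pool.Agent.H89IP.packingDim_of_volume Pool.Agent.H89IP.t_OUT R hR
  have hlow2 : ∀ (n : ℕ) (R B : Set (E n)), volume R ≠ 0 → (∀ r ∈ R, Rich B r) →
      ((n * L : ℝ) : EReal) ≤ packingDim B := by
    intro n R B hR hB
    have h1 := hlow n R B hB n (hvol n R hR)
    rwa [mul_comm] at h1
  have hle : ∀ (n : ℕ) (B : Set (E n)), packingDim B ≤ ((n : ℝ) : EReal) := fun n B =>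
    Pool.Agent.H89IP.packingDim_le_n B
  have huniv : ∀ n : ℕ, (volume (Set.univ : Set (E n))) ≠ 0 := fun n =>
    (isOpen_univ.measure_pos volume Set.univ_nonempty).ne'
  -- the conjecture for one `n` means `L = 1`
  have hone : ∀ n : ℕ, 1 ≤ n → ((n * L : ℝ) : EReal) = ((n : ℝ) : EReal) → L = 1 := by
    intro n hn h1
    rw [EReal.coe_eq_coe_iff] at h1
    have h2 : (0 : ℝ) < n := by exact_mod_cast hn
    have h3 : (n : ℝ) * L = n * 1 := by rw [h1, mul_one]
    exact mul_left_cancel₀ h2.ne' h3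
  have hQ : Q1 ↔ L = 1 := by
    constructor
    · intro hq
      exact hone 1 le_rfl (tendsto_nhds_unique (hlim 1) (hq 1 le_rfl))
    · rintro rfl n -
      have h1 := hlim n
      rwa [mul_one] at h1
  have hfromL : L = 1 → ∀ n : ℕ, Strong n := by
    rintro rfl n R B hB
    refine le_of_forall_lt fun x hx => ?_
    obtain ⟨y, hy, hyx⟩ := EReal.lt_iff_exists_real_btwn.mp hx
    have h1 := hlow n R B hB y hyx.le
    rw [one_mul] at h1
    exact hy.trans_le h1
  have hstrong : ∀ n : ℕ, Strong n → ∀ B : Set (E n), (∀ r : E n, Rich B r) →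
      packingDim B = ((n : ℝ) : EReal) := by
    intro n hS B hB
    exact le_antisymm (hle n B) ((hvol n Set.univ (huniv n)).trans (hS Set.univ B fun r _ => hB r))
  have hback : ∀ n : ℕ, 1 ≤ n → InfiniteQ n → L = 1 := by
    intro n hn hI
    obtain ⟨B, hB1, hB2, hB3⟩ := hex n
    rw [hI B hB1 hB2, EReal.coe_le_coe_iff] at hB3
    refine le_antisymm h.one ?_
    have h2 : (0 : ℝ) < n := by exact_mod_cast hn
    by_contra hcon
    push Not at hcon
    nlinarith
  refine ⟨L, h.low, h.one, hlim, fun n => ?_, hlow, hlow2, hQ, fun n hn => ⟨?_, ?_, ?_⟩⟩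
  · obtain ⟨B, hB1, hB2, hB3⟩ := hex n
    exact ⟨B, hB1, hB2, le_antisymm hB3
      (hlow2 n Set.univ B (huniv n) fun r _ => rich_of_containsZ (containsZ_of_containsQ (hB2 r)))⟩
  · rw [hQ]
    exact ⟨fun hL B _ hB => hstrong n (hfromL hL n) B fun r =>
      rich_of_containsZ (containsZ_of_containsQ (hB r)), hback n hn⟩
  · rw [hQ]
    refine ⟨fun hL B hB => hstrong n (hfromL hL n) B fun r => rich_of_containsZ (hB r), fun hI => ?_⟩
    exact hback n hn fun B _ hB => hI B fun r => containsZ_of_containsQ (hB r)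
  · rw [hQ]
    refine ⟨fun hL => hfromL hL n, fun hS => ?_⟩
    exact hback n hn fun B _ hB => hstrong n hS B fun r =>
      rich_of_containsZ (containsZ_of_containsQ (hB r))

end Pool.Agent.Results.MP_4b405e_nt.InfiniteProgressions
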