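import Pool.Agent.H88RD.Up
import Pool.Agent.Results.MP_4b405e_nt.ExactExponent
import Pool.Agent.Results.MP_4b405e_nt.ExponentBound

set_option autoImplicit false

/-!
# MP_4b405e_nt: random sets of common differences

For a finite set `R` of integer vectors let `τ_k(R)` be the least number of elements of a finite set
`D ⊆ ℝ^n` which contains a `k`-term progression with every common difference in `R`.  Trivially
`τ_k(R) ≤ k |R|`, and `τ_k(R) ≤ τ_k({0, …, N-1}^n) = N^(n f + o(1))` with the exponent `n f = f^M_n(k)` of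
the problem, if `R` is a subset of the grid.  We prove that for almost all subsets `R` of the grid with
`m` elements these two bounds are the truth:

`c min (m, N^(n f - ε)) ≤ τ_k(R) ≤ C min (m, N^(n f + ε))`.

So `f^M_n(k)` is the threshold exponent of random sets of common differences: below it there is no
saving at all (not even by a power of `log N`), above it there is always a saving by a power.
Hence the conjecture is equivalent to its version for random sets `R ⊆ {0, …, N-1}` with at most `N^β`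
elements, for all `β < 1`; and for `β = 0.5989` this version is true.

Proof.  A set `D ⊆ ℤ^n` may be compressed: `x_i ↦` the number of the `y < x_i` in the union of the
intervals `[d_i, d_i + N)`, `d ∈ D`, preserves the progressions with common differences in the grid.  So
there are at most `N^(n (n + 1) M)` sets `D` with `M` elements to consider, and by the inequality without
constants `|R|^f ≤ |D|` each of them serves at most `N^(- ε m) C(N^n, m)` sets `R` with `m`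
elements.
-/

open Finset Filter Topology

namespace Pool.Agent.Results.MP_4b405e_nt.RandomDifferences

/-- Euclidean space `ℝ^n`. -/
abbrev E (n : ℕ) : Type := EuclideanSpace ℝ (Fin n)

/-- The least number of sets of diameter at most `δ` covering `B` (for bounded `B`). -/
noncomputable def coverNum {n : ℕ} (B : Set (E n)) (δ : ℝ) : ℕ :=
  sInf {N | ∃ U : Fin N → Set (E n),
    (∀ i, ∀ x ∈ U i, ∀ y ∈ U i, dist x y ≤ δ) ∧ B ⊆ ⋃ i, U i}

/-- Upper Minkowski dimension (upper box-counting dimension). -/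
noncomputable def upperMinkowski {n : ℕ} (B : Set (E n)) : EReal :=
  limsup (fun δ : ℝ => ((Real.log (coverNum B δ) / Real.log (1 / δ) : ℝ) : EReal)) (𝓝[>] 0)

/-- `B` contains a `k`-term progression with every common difference in `[0,1]^n`. -/
def HasProgressions {n : ℕ} (k : ℕ) (B : Set (E n)) : Prop :=
  ∀ r : E n, (∀ i, r i ∈ Set.Icc (0 : ℝ) 1) → ∃ a : E n, ∀ j : ℕ, j < k → a + (j : ℝ) • r ∈ B

/-- `f^M_n(k)`: the infimum of the upper Minkowski dimensions of the bounded sets `B ⊆ ℝ^n` which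
contain a `k`-term progression with every common difference in `[0,1]^n`. -/
noncomputable def fM (n k : ℕ) : EReal :=
  ⨅ (B : Set (E n)) (_ : Bornology.IsBounded B) (_ : HasProgressions k B), upperMinkowski B

/-- the grid `{0, …, N-1}^n` -/
noncomputable def grid (n N : ℕ) : Finset (Fin n → ℤ) := Fintype.piFinset fun _ => Finset.Ico (0 : ℤ) N

/-- an integer vector as an element of `ℝ^n` -/
noncomputable def vec {n : ℕ} (r : Fin n → ℤ) : E n := WithLp.toLp 2 fun i => (r i : ℝ)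

/-- `τ_k(R)`: the least number of elements of a finite subset of `ℝ^n` which contains a `k`-term
progression with every common difference in `R` -/
noncomputable def tau {n : ℕ} (k : ℕ) (R : Finset (Fin n → ℤ)) : ℕ :=
  sInf {t | ∃ D : Finset (E n), D.card = t ∧
    ∀ r ∈ R, ∃ a : E n, ∀ j : ℕ, j < k → a + (j : ℝ) • vec r ∈ D}

/-- the exponent, and its properties -/
theorem exists_f {k : ℕ} (hk : 2 ≤ k) : ∃ f : ℝ, 1 / 2 ≤ f ∧ f ≤ 1 ∧
    (∀ n : ℕ, fM n k = ((n * f : ℝ) : EReal)) ∧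
    (∀ (G : Type) [AddCommGroup G] [IsAddTorsionFree G] (R D : Finset G), R.Nonempty →
      (∀ r ∈ R, ∃ a : G, ∀ j : ℕ, j < k → a + j • r ∈ D) → (R.card : ℝ) ^ f ≤ D.card) ∧
    (∀ s : ℝ, f < s → ∃ M : ℕ, 2 ≤ M ∧ ∃ Δ : Finset ℤ, H88RD.Pr k M Δ ∧
      (Δ.card : ℝ) ≤ (M : ℝ) ^ s) := by
  obtain ⟨f, w, h1, h2, h3, h4, h5, h6, h7, h8, h9, h10⟩ := ExactExponent.result.1 k hk
  refine ⟨f, h1, h2, fun n => (h6 n).2.1, ?_, ?_⟩
  · intro G _ _ R D hR hc
    have h11 := h7 G R (fun _ => D) hR (by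
      intro r hr
      obtain ⟨a, ha⟩ := hc r hr
      exact ⟨a, fun j => ha j j.2⟩)
    have hD : D.Nonempty := by
      obtain ⟨r, hr⟩ := hR
      obtain ⟨a, ha⟩ := hc r hr
      exact ⟨_, ha 0 (by omega)⟩
    have hD' : (0 : ℝ) < D.card := by exact_mod_cast hD.card_pos
    rwa [← Real.rpow_sum_of_pos hD', h5, Real.rpow_one] at h11
  · intro s hs
    obtain ⟨M, hM, D, hD, hc⟩ := h8 s hs 2
    exact ⟨M, hM, D, hD, hc⟩

theorem hf_of {k : ℕ} {f : ℝ}
    (h : ∀ (G : Type) [AddCommGroup G] [IsAddTorsionFree G] (R D : Finset G), R.Nonempty →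
      (∀ r ∈ R, ∃ a : G, ∀ j : ℕ, j < k → a + j • r ∈ D) → (R.card : ℝ) ^ f ≤ D.card) (n : ℕ)
    (R D : Finset (Fin n → ℤ)) (hR : R.Nonempty) (hZ : H88RD.HasZ k R D) :
    (R.card : ℝ) ^ f ≤ D.card := by
  refine h (Fin n → ℤ) R D hR fun r hr => ?_
  obtain ⟨a, ha⟩ := hZ r hr
  refine ⟨a, fun j hj => ?_⟩
  have e : a + j • r = fun i => a i + j * r i := by
    funext i
    simp
  rw [e]
  exact ha j hj

/-- covering numbers -/
theorem cover {n k N : ℕ} (hN : 1 ≤ N) (R : Finset (Fin n → ℤ)) (B : Set (E n))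
    (hB : Bornology.IsBounded B)
    (h : ∀ r ∈ R, ∃ a : E n, ∀ j : ℕ, j < k → a + ((j : ℝ) / N) • vec r ∈ B) :
    tau k R ≤ 3 ^ n * coverNum B (1 / N) := by
  have hN0 : (0 : ℝ) < N := by exact_mod_cast hN
  obtain ⟨Z, h1, -, h3⟩ := Helper66x.AK.cells_of_cover hB (δ := 1 / N) (by positivity)
  refine le_trans (H88RD.toE (D := Z) ?_) h3
  intro r hr
  obtain ⟨a, ha⟩ := h r hr
  refine ⟨fun i => ⌊(N : ℝ) * a i⌋, fun j hj => ?_⟩
  have h4 := h1 _ (ha j hj)
  have e : (fun i => ⌊(a + ((j : ℝ) / N) • vec r) i / (1 / N)⌋) =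
      fun i => ⌊(N : ℝ) * a i⌋ + j * r i := by
    funext i
    rw [← H88RD.floor_prog ((N : ℝ) * a i) ((j : ℝ) * r i) j (r i) rfl]
    congr 1
    have : (a + ((j : ℝ) / N) • vec r) i = a i + (j : ℝ) / N * (r i : ℝ) := by
      simp [vec]
    rw [this]
    field_simp
  rw [e] at h4
  exact h4

open Classical in
/-- `f` is at least the exponent of random sets without saving -/
theorem le_f {k : ℕ} {f : ℝ} (hf : 1 / 2 ≤ f)
    (hs : ∀ s : ℝ, f < s → ∃ M : ℕ, 2 ≤ M ∧ ∃ Δ : Finset ℤ, H88RD.Pr k M Δ ∧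
      (Δ.card : ℝ) ≤ (M : ℝ) ^ s) {β c : ℝ} (hβ : β < 1) (hc : 0 < c)
    (h : ∀ N m : ℕ, 2 ≤ N → 1 ≤ m → (m : ℝ) ≤ (N : ℝ) ^ β →
      (((powersetCard m (grid 1 N)).filter fun R => (tau k R : ℝ) < c * m).card : ℝ) ≤
        (N : ℝ) ^ (-(c * m)) * (powersetCard m (grid 1 N)).card) : β ≤ f := by
  by_contra hcon
  push Not at hcon
  set δ : ℝ := (β - f) / 2 with hδ
  have hδ0 : 0 < δ := by rw [hδ]; linarith
  obtain ⟨C, hC, hup⟩ := H88RD.upper (k := k) (by linarith : 0 < f) hs (n := 1) le_rfl hδ0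
  have ht : Tendsto (fun x : ℝ => x ^ δ) atTop atTop := tendsto_rpow_atTop hδ0
  obtain ⟨x₀, hx₀⟩ := eventually_atTop.mp (ht.eventually (eventually_gt_atTop (2 * C / c)))
  obtain ⟨N, hN⟩ := exists_nat_ge (max x₀ 4)
  have hN4 : (4 : ℝ) ≤ N := (le_max_right _ _).trans hN
  have hN4' : 4 ≤ N := by exact_mod_cast hN4
  have hN0 : (0 : ℝ) < N := by linarith
  have hN1 : (1 : ℝ) ≤ N := by linarith
  have hbig := hx₀ N ((le_max_left _ _).trans hN)
  have hNβ : (2 : ℝ) ≤ (N : ℝ) ^ β := by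
    calc (2 : ℝ) = (4 : ℝ) ^ (1 / 2 : ℝ) := by
          rw [show (4 : ℝ) = 2 ^ (2 : ℝ) by norm_num, ← Real.rpow_mul (by norm_num)]
          norm_num
      _ ≤ (N : ℝ) ^ (1 / 2 : ℝ) := Real.rpow_le_rpow (by norm_num) hN4 (by norm_num)
      _ ≤ (N : ℝ) ^ β := Real.rpow_le_rpow_of_exponent_le hN1 (by linarith)
  set m : ℕ := ⌊(N : ℝ) ^ β⌋₊ with hm
  have hmle : (m : ℝ) ≤ (N : ℝ) ^ β := Nat.floor_le (by positivity)
  have hmge : (N : ℝ) ^ β - 1 < m := by
    have := Nat.lt_floor_add_one ((N : ℝ) ^ β)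
    rw [← hm] at this
    linarith
  have hm1 : 1 ≤ m := by
    have : (0 : ℝ) < m := by linarith
    exact_mod_cast this
  have hmN : m ≤ N := by
    have : (m : ℝ) ≤ (N : ℝ) ^ (1 : ℝ) :=
      hmle.trans (Real.rpow_le_rpow_of_exponent_le hN1 hβ.le)
    rw [Real.rpow_one] at this
    exact_mod_cast this
  have h1 := h N m (by omega) hm1 hmle
  have hcard : (0 : ℝ) < ((powersetCard m (grid 1 N)).card : ℝ) := by
    have e : (grid 1 N).card = N ^ 1 := H88RD.card_grid 1 N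
    rw [Finset.card_powersetCard, e, pow_one]
    exact_mod_cast Nat.choose_pos hmN
  have hex : ∃ R ∈ powersetCard m (grid 1 N), c * m ≤ (tau k R : ℝ) := by
    by_contra hne
    push Not at hne
    rw [Finset.filter_true_of_mem hne] at h1
    have h2 : (N : ℝ) ^ (-(c * m)) < 1 := by
      apply Real.rpow_lt_one_of_one_lt_of_neg (by linarith)
      have : (0 : ℝ) < m := by exact_mod_cast hm1
      have : 0 < c * m := by positivity
      linarith
    nlinarith
  obtain ⟨R, hR, hRc⟩ := hex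
  have h3 := hup N (by omega) R (Finset.mem_powersetCard.mp hR).1
  have h4 : c * m ≤ C * (N : ℝ) ^ ((1 : ℕ) * f + δ) := hRc.trans h3
  rw [Nat.cast_one, one_mul] at h4
  have h5 : (N : ℝ) ^ β / 2 ≤ m := by linarith
  have h6 : (N : ℝ) ^ β = (N : ℝ) ^ (f + δ) * (N : ℝ) ^ δ := by
    rw [← Real.rpow_add hN0]
    congr 1
    rw [hδ]; ring
  have h7 : c * ((N : ℝ) ^ (f + δ) * (N : ℝ) ^ δ / 2) ≤ C * (N : ℝ) ^ (f + δ) := by
    rw [← h6]
    exact (mul_le_mul_of_nonneg_left h5 hc.le).trans h4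
  have h8 : (0 : ℝ) < (N : ℝ) ^ (f + δ) := by positivity
  have h9 : c * (N : ℝ) ^ δ / 2 ≤ C := by
    refine le_of_mul_le_mul_right ?_ h8
    calc c * (N : ℝ) ^ δ / 2 * (N : ℝ) ^ (f + δ) = c * ((N : ℝ) ^ (f + δ) * (N : ℝ) ^ δ / 2) := by ring
      _ ≤ _ := h7
  rw [div_lt_iff₀ hc] at hbig
  linarith

open Classical in
theorem result :
    (∀ k : ℕ, 2 ≤ k → ∃ f : ℝ, 1 / 2 ≤ f ∧ f ≤ 1 ∧ ∀ n : ℕ, fM n k = ((n * f : ℝ) : EReal) ∧
      (1 ≤ n →
      -- 1. almost all sets of common differences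
      (∀ ε : ℝ, 0 < ε → ε ≤ 1 → ∀ N m : ℕ, 2 ≤ N → 1 ≤ m →
        (((powersetCard m (grid n N)).filter fun R =>
          (tau k R : ℝ) < ε / (2 * n * (n + 1)) * min (m : ℝ) ((N : ℝ) ^ (n * f - ε))).card : ℝ) ≤
        (N : ℝ) ^ (-(ε * m / 2)) * (powersetCard m (grid n N)).card) ∧
      -- 2. this is sharp for all sets of common differences
      (∀ R : Finset (Fin n → ℤ), tau k R ≤ k * R.card) ∧
      (∀ ε : ℝ, 0 < ε → ∃ C : ℝ, ∀ N : ℕ, 1 ≤ N → ∀ R ⊆ grid n N,
        (tau k R : ℝ) ≤ C * (N : ℝ) ^ (n * f + ε)) ∧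
      -- 3. covering numbers of sets with the common differences `r / N`
      (∀ N : ℕ, 1 ≤ N → ∀ (R : Finset (Fin n → ℤ)) (B : Set (E n)), Bornology.IsBounded B →
        (∀ r ∈ R, ∃ a : E n, ∀ j : ℕ, j < k → a + ((j : ℝ) / N) • vec r ∈ B) →
        tau k R ≤ 3 ^ n * coverNum B (1 / N)))) ∧
    -- 4. the conjecture is equivalent to its version for random sets of common differences
    ((∀ n : ℕ, Tendsto (fun k => fM n k) atTop (𝓝 ((n : ℝ) : EReal))) ↔
      ∀ β : ℝ, β < 1 → ∃ k : ℕ, 2 ≤ k ∧ ∃ c : ℝ, 0 < c ∧ ∀ N m : ℕ, 2 ≤ N → 1 ≤ m →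
        (m : ℝ) ≤ (N : ℝ) ^ β →
        (((powersetCard m (grid 1 N)).filter fun R => (tau k R : ℝ) < c * m).card : ℝ) ≤
          (N : ℝ) ^ (-(c * m)) * (powersetCard m (grid 1 N)).card) ∧
    -- 5. an unconditional range
    (∃ k₀ : ℕ, ∀ k : ℕ, k₀ ≤ k → ∀ n : ℕ, 1 ≤ n → ∀ N m : ℕ, 2 ≤ N → 1 ≤ m →
      (m : ℝ) ≤ (N : ℝ) ^ (0.5989 * n : ℝ) →
      (((powersetCard m (grid n N)).filter fun R =>
        (tau k R : ℝ) < 0.00005 / (2 * n * (n + 1)) * m).card : ℝ) ≤
          (N : ℝ) ^ (-(0.00005 * m / 2) : ℝ) * (powersetCard m (grid n N)).card) := by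
  refine ⟨fun k hk => ?_, ⟨?_, ?_⟩, ?_⟩
  · obtain ⟨f, h1, h2, h3, h4, h5⟩ := exists_f hk
    have hf0 : 0 < f := by linarith
    refine ⟨f, h1, h2, fun n => ⟨h3 n, fun hn => ⟨?_, ?_, ?_, ?_⟩⟩⟩
    · intro ε hε hε1 N m hN hm
      exact H88RD.lower hn (by omega : 1 ≤ k) hf0 h2 (hf_of h4 n) hε hε1 hN hm
    · exact fun R => H88RD.T_le k R
    · intro ε hε
      obtain ⟨C, _, h⟩ := H88RD.upper (k := k) hf0 h5 hn hε
      exact ⟨C, h⟩
    · intro N hN R B hB h
      exact cover hN R B hB h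
  · intro hQ β hβ
    set ε : ℝ := min ((1 - β) / 2) 1 with hε
    have hε0 : 0 < ε := lt_min (by linarith) one_pos
    have hε1 : ε ≤ 1 := min_le_right _ _
    have hεβ : ε ≤ (1 - β) / 2 := min_le_left _ _
    have h1 := hQ 1
    rw [Nat.cast_one] at h1
    have h2 : ((β + ε : ℝ) : EReal) < ((1 : ℝ) : EReal) := by
      rw [EReal.coe_lt_coe_iff]
      linarith
    obtain ⟨k, hk, hk2⟩ := ((h1.eventually (lt_mem_nhds h2)).and (eventually_ge_atTop 2)).exists
    obtain ⟨f, h3, h4, h5, h6, h7⟩ := exists_f hk2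
    rw [h5 1, Nat.cast_one, one_mul, EReal.coe_lt_coe_iff] at hk
    refine ⟨k, hk2, ε / 4, by positivity, fun N m hN hm hmβ => ?_⟩
    have hN1 : (1 : ℝ) ≤ N := by exact_mod_cast (by omega : 1 ≤ N)
    have h8 := H88RD.lower (n := 1) le_rfl (by omega : 1 ≤ k) (by linarith : 0 < f) h4 (hf_of h6 1)
      hε0 hε1 hN hm
    have h9 : min (m : ℝ) ((N : ℝ) ^ (((1 : ℕ) : ℝ) * f - ε)) = m := by
      apply min_eq_left
      refine hmβ.trans (Real.rpow_le_rpow_of_exponent_le hN1 ?_)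
      rw [Nat.cast_one]
      linarith
    rw [h9] at h8
    have h10 : ε / (2 * ((1 : ℕ) : ℝ) * (((1 : ℕ) : ℝ) + 1)) = ε / 4 := by
      rw [Nat.cast_one]; norm_num
    rw [h10] at h8
    refine h8.trans ?_
    apply mul_le_mul_of_nonneg_right _ (Nat.cast_nonneg _)
    apply Real.rpow_le_rpow_of_exponent_le hN1
    have : (0 : ℝ) ≤ ε * m := by positivity
    linarith
  · intro h
    refine ExactExponent.result.2.mpr fun ε hε => ?_
    have hβ : 1 - ε / 2 < 1 := by linarith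
    obtain ⟨k, hk, c, hc, hP⟩ := h (1 - ε / 2) hβ
    obtain ⟨f, h3, h4, h5, h6, h7⟩ := exists_f hk
    have h8 := le_f h3 h7 hβ hc hP
    refine ⟨k, fun R D hR hD => ?_⟩
    have h9 := h6 ℤ R D hR (by
      intro r hr
      obtain ⟨a, ha⟩ := hD r hr
      refine ⟨a, fun j hj => ?_⟩
      rw [nsmul_eq_mul]
      exact ha j hj)
    refine le_trans (Real.rpow_le_rpow_of_exponent_le ?_ (by linarith)) h9
    exact_mod_cast hR.card_pos
  · obtain ⟨k₀, hk₀, -, -⟩ := ExponentBound.result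
    refine ⟨max k₀ 2, fun k hk n hn N m hN hm hmN => ?_⟩
    have hN1 : (1 : ℝ) ≤ N := by exact_mod_cast (by omega : 1 ≤ N)
    have hn1 : (1 : ℝ) ≤ n := by exact_mod_cast hn
    obtain ⟨f, h3, h4, h5, h6, h7⟩ := exists_f ((le_max_right _ _).trans hk)
    have h8 : (((1 : ℕ) : ℝ) / 1.669587 : ℝ) ≤ f := by
      have h9 := hk₀ 1 k ((le_max_left _ _).trans hk)
      have h10 : ExponentBound.fM 1 k = fM 1 k := rfl
      rw [h10, h5 1, EReal.coe_le_coe_iff, Nat.cast_one, one_mul] at h9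
      rw [Nat.cast_one]
      exact h9
    have h9 := H88RD.lower (n := n) hn (by omega : 1 ≤ k) (by linarith : 0 < f) h4 (hf_of h6 n)
      (ε := 0.00005) (by norm_num) (by norm_num) hN hm
    have h10 : min (m : ℝ) ((N : ℝ) ^ ((n : ℝ) * f - 0.00005)) = m := by
      apply min_eq_left
      refine hmN.trans (Real.rpow_le_rpow_of_exponent_le hN1 ?_)
      have h11 : (0.59895 : ℝ) ≤ f := by
        refine le_trans ?_ h8
        norm_num
      nlinarith
    rw [h10] at h9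
    exact h9

end Pool.Agent.Results.MP_4b405e_nt.RandomDifferences
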